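import Mathlib

set_option autoImplicit false

/-!
# A selfdual geometric configuration (11_3) of rank 2 that is never congruent to its polar

The configuration lives in the 8 x 8 integer grid.  Its Levi graph has exactly one selfduality `δ`,
which has order 2.  The line `0` contains three points `1, 2, 3` each lying on its own `δ`-image.
If a realization were congruent to its polar, the resulting correlation would induce `δ`, hence
would be (on the configuration) a polarity; a polarity has at most two absolute points on a line.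
-/

namespace Pool.Agent.Results.MP_8aa8ea_co.NotSelfPolar

open scoped RealInnerProductSpace

/-- The Euclidean plane. -/
abbrev Plane : Type := EuclideanSpace ℝ (Fin 2)

/-- A straight line of the plane: the solution set of an equation `a x + b y = k` with
`(a, b) ≠ (0, 0)`. -/
def IsLine (l : Set Plane) : Prop :=
  ∃ a b k : ℝ, (a ≠ 0 ∨ b ≠ 0) ∧ ∀ p : Plane, p ∈ l ↔ a * p 0 + b * p 1 = k

/-- A system of points and lines (sets of points) of the plane; incidence is ordinary incidence
`p ∈ l`. -/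
structure Config where
  /-- the points -/
  pts : Set Plane
  /-- the lines -/
  lns : Set (Set Plane)

/-- `C` is a geometric configuration `(n_q)`: `n` points and `n` straight lines, every line
contains exactly `q` of the points and every point lies on exactly `q` of the lines.
(Two distinct points of the plane lie on at most one common straight line.) -/
structure Config.IsGeometric (C : Config) (n q : ℕ) : Prop where
  isLine : ∀ l ∈ C.lns, IsLine l
  pts_finite : C.pts.Finite
  lns_finite : C.lns.Finite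
  pts_card : C.pts.ncard = n
  lns_card : C.lns.ncard = n
  line_card : ∀ l ∈ C.lns, {p | p ∈ C.pts ∧ p ∈ l}.ncard = q
  point_card : ∀ p ∈ C.pts, {l | l ∈ C.lns ∧ p ∈ l}.ncard = q

/-- `C` and `C'` are isomorphic as incidence structures, that is, they are realizations of
the same combinatorial configuration. -/
def Config.Iso (C C' : Config) : Prop :=
  ∃ (f : C.pts ≃ C'.pts) (h : C.lns ≃ C'.lns), ∀ (p : C.pts) (l : C.lns),
    p.val ∈ l.val ↔ (f p).val ∈ (h l).val

/-- The symmetric incidence relation on the disjoint union of points and lines. -/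
def Config.Inc (C : Config) : C.pts ⊕ C.lns → C.pts ⊕ C.lns → Prop
  | .inl p, .inr l => p.val ∈ l.val
  | .inr l, .inl p => p.val ∈ l.val
  | .inl _, .inl _ => False
  | .inr _, .inr _ => False

/-- A selfduality: a bijection of the union of points and lines onto itself that maps points to
lines, lines to points, and preserves incidence. -/
structure Config.IsSelfduality (C : Config) (δ : Equiv.Perm (C.pts ⊕ C.lns)) : Prop where
  pts_to_lns : ∀ p : C.pts, (δ (.inl p)).isRight
  lns_to_pts : ∀ l : C.lns, (δ (.inr l)).isLeft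
  inc : ∀ x y, C.Inc x y ↔ C.Inc (δ x) (δ y)

/-- `C` is selfdual of rank `m`: `m` is the least order of a selfduality of `C`. -/
def Config.HasRank (C : Config) (m : ℕ) : Prop :=
  IsLeast {k : ℕ | ∃ δ : Equiv.Perm (C.pts ⊕ C.lns), C.IsSelfduality δ ∧ orderOf δ = k} m

/-- The polar line of a point `x ≠ c` in the circle with centre `c` and radius `r`: the set of
points `y` such that the inner product of `y - c` and `x - c` is `r ^ 2`. -/
def polarLine (c : Plane) (r : ℝ) (x : Plane) : Set Plane :=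
  {y | (y 0 - c 0) * (x 0 - c 0) + (y 1 - c 1) * (x 1 - c 1) = r ^ 2}

/-- The polar of `C` in a circle: its points are the poles of the lines of `C`, its lines are the
polars of the points of `C`. -/
def Config.polar (C : Config) (c : Plane) (r : ℝ) : Config where
  pts := {x | x ≠ c ∧ polarLine c r x ∈ C.lns}
  lns := polarLine c r '' C.pts

/-- The polar of `C` in circles with centre `c` is defined: `c` is not a point of `C` and
no line of `C` passes through `c`. -/
def Config.PolarDefined (C : Config) (c : Plane) : Prop :=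
  c ∉ C.pts ∧ ∀ l ∈ C.lns, c ∉ l

/-- `C` and `C'` are congruent: an isometry of the plane maps the points of `C` onto the points
of `C'`.  (Nothing is required of the lines, so that non-congruence in this sense is the strongest
possible statement.) -/
def Config.Congruent (C C' : Config) : Prop :=
  ∃ g : Plane ≃ᵢ Plane, g '' C.pts = C'.pts

/-! ### Elementary plane geometry -/

theorem mem_polarLine (c : Plane) (r : ℝ) (x y : Plane) :
    y ∈ polarLine c r x ↔
      (y 0 - c 0) * (x 0 - c 0) + (y 1 - c 1) * (x 1 - c 1) = r ^ 2 := Iff.rfl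

/-- The definition of the polar line agrees with the description by the inner product. -/
theorem polarLine_eq_inner (c : Plane) (r : ℝ) (x : Plane) :
    polarLine c r x = {y : Plane | ⟪y - c, x - c⟫ = r ^ 2} := by
  ext y
  rw [mem_polarLine]
  change _ ↔ ⟪y - c, x - c⟫ = r ^ 2
  rw [PiLp.inner_apply, Fin.sum_univ_two]
  simp [mul_comm]

theorem plane_ext {x y : Plane} (h0 : x 0 = y 0) (h1 : x 1 = y 1) : x = y := by
  ext i
  fin_cases i
  · exact h0
  · exact h1

theorem exists_pole (l : Set Plane) (h : IsLine l) (c : Plane) (hc : c ∉ l)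
    (r : ℝ) (hr : 0 < r) : ∃ x, x ≠ c ∧ polarLine c r x = l := by
  obtain ⟨a, b, k, hab, hl⟩ := h
  have hk : k - a * c 0 - b * c 1 ≠ 0 := by
    intro hcon
    exact hc ((hl c).2 (by linarith))
  have hr2 : r ^ 2 ≠ 0 := by positivity
  set s : ℝ := r ^ 2 / (k - a * c 0 - b * c 1) with hs
  have hs0 : s ≠ 0 := div_ne_zero hr2 hk
  have hsk : s * (k - a * c 0 - b * c 1) = r ^ 2 := div_mul_cancel₀ _ hk
  refine ⟨!₂[c 0 + s * a, c 1 + s * b], ?_, ?_⟩
  · intro hcon
    have e0 : c 0 + s * a = c 0 := by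
      have := congrArg (fun z : Plane => z 0) hcon
      simpa using this
    have e1 : c 1 + s * b = c 1 := by
      have := congrArg (fun z : Plane => z 1) hcon
      simpa using this
    have f0 : s * a = 0 := by linarith
    have f1 : s * b = 0 := by linarith
    rcases hab with h1 | h1
    · exact (mul_ne_zero hs0 h1) f0
    · exact (mul_ne_zero hs0 h1) f1
  · ext y
    rw [mem_polarLine, hl]
    have : (y 0 - c 0) * ((!₂[c 0 + s * a, c 1 + s * b] : Plane) 0 - c 0) +
        (y 1 - c 1) * ((!₂[c 0 + s * a, c 1 + s * b] : Plane) 1 - c 1) =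
        s * (a * y 0 + b * y 1 - a * c 0 - b * c 1) := by
      simp; ring
    rw [this, ← hsk]
    constructor
    · intro h1
      have := mul_left_cancel₀ hs0 h1
      linarith
    · intro h1
      rw [← h1]

theorem polarLine_inj (c : Plane) (r : ℝ) (hr : 0 < r) (x x' : Plane) (hx : x ≠ c)
    (h : polarLine c r x = polarLine c r x') : x = x' := by
  have key : ∀ y0 y1 : ℝ, (y0 * (x 0 - c 0) + y1 * (x 1 - c 1) = r ^ 2 ↔
      y0 * (x' 0 - c 0) + y1 * (x' 1 - c 1) = r ^ 2) := by
    intro y0 y1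
    have h1 := mem_polarLine c r x !₂[y0 + c 0, y1 + c 1]
    have h2 := mem_polarLine c r x' !₂[y0 + c 0, y1 + c 1]
    rw [h] at h1
    rw [h2] at h1
    simpa using h1.symm
  set a := x 0 - c 0 with ha
  set b := x 1 - c 1 with hb
  set a' := x' 0 - c 0 with ha'
  set b' := x' 1 - c 1 with hb'
  have hN : a ^ 2 + b ^ 2 ≠ 0 := by
    intro hcon
    have h0 : a = 0 := by nlinarith [sq_nonneg a, sq_nonneg b]
    have h1 : b = 0 := by nlinarith [sq_nonneg a, sq_nonneg b]
    exact hx (plane_ext (by linarith) (by linarith))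
  have hr2 : r ^ 2 ≠ 0 := by positivity
  -- two points of the line
  have k1 := (key (r ^ 2 * a / (a ^ 2 + b ^ 2)) (r ^ 2 * b / (a ^ 2 + b ^ 2))).1 (by
    field_simp)
  have k2 := (key (r ^ 2 * a / (a ^ 2 + b ^ 2) - b) (r ^ 2 * b / (a ^ 2 + b ^ 2) + a)).1 (by
    field_simp; ring)
  have k3 : -b * a' + a * b' = 0 := by linarith
  have k4 : a * a' + b * b' = a ^ 2 + b ^ 2 := by
    field_simp at k1
    linarith
  have e0 : a' = a := by
    have : (a ^ 2 + b ^ 2) * (a' - a) = 0 := by linear_combination a * k4 - b * k3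
    rcases mul_eq_zero.1 this with h5 | h5
    · exact absurd h5 hN
    · linarith
  have e1 : b' = b := by
    have : (a ^ 2 + b ^ 2) * (b' - b) = 0 := by linear_combination b * k4 + a * k3
    rcases mul_eq_zero.1 this with h5 | h5
    · exact absurd h5 hN
    · linarith
  exact plane_ext (by linarith) (by linarith)

theorem iso_coords (g : Plane ≃ᵢ Plane) :
    ∃ m00 m01 t0 m10 m11 t1 : ℝ, ∀ y : Plane,
      (g.symm y) 0 = m00 * y 0 + m01 * y 1 + t0 ∧ (g.symm y) 1 = m10 * y 0 + m11 * y 1 + t1 := by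
  set f := g.symm.toRealAffineIsometryEquiv with hf
  have hfy : ∀ y, g.symm y = f y := fun y => rfl
  set e0 : Plane := !₂[1, 0] with he0
  set e1 : Plane := !₂[0, 1] with he1
  have hlin : ∀ y : Plane, f y = y 0 • f.linearIsometryEquiv e0 + y 1 • f.linearIsometryEquiv e1 + f 0 := by
    intro y
    have h1 : f y = f.linearIsometryEquiv y + f 0 := by
      have := f.map_vadd 0 y
      simpa using this
    have h2 : y = y 0 • e0 + y 1 • e1 := by
      apply plane_ext <;> simp [he0, he1]
    rw [h1]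
    conv_lhs => rw [h2]
    rw [map_add, map_smul, map_smul]
  refine ⟨(f.linearIsometryEquiv e0) 0, (f.linearIsometryEquiv e1) 0, (f 0) 0,
    (f.linearIsometryEquiv e0) 1, (f.linearIsometryEquiv e1) 1, (f 0) 1, ?_⟩
  intro y
  rw [hfy, hlin y]
  constructor
  · simp [mul_comm]
  · simp [mul_comm]

/-! ### The combinatorial configuration -/

/-- Look up an entry in a table. -/
def tab (L : List (List ℕ)) : Matrix (Fin 11) (Fin 11) ℕ :=
  fun i j => (L.getD i.val []).getD j.val 0

/-- The (symmetric) incidence matrix of the configuration: point `i` lies on line `j` iff the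
entry `i, j` is `1`. -/
def AL : List (List ℕ) :=
  [[0, 1, 1, 1, 0, 0, 0, 0, 0, 0, 0],
   [1, 1, 0, 0, 1, 0, 0, 0, 0, 0, 0],
   [1, 0, 1, 0, 0, 1, 0, 0, 0, 0, 0],
   [1, 0, 0, 1, 0, 0, 1, 0, 0, 0, 0],
   [0, 1, 0, 0, 0, 1, 0, 1, 0, 0, 0],
   [0, 0, 1, 0, 1, 0, 0, 0, 1, 0, 0],
   [0, 0, 0, 1, 0, 0, 0, 1, 0, 1, 0],
   [0, 0, 0, 0, 1, 0, 1, 0, 0, 0, 1],
   [0, 0, 0, 0, 0, 1, 0, 0, 0, 1, 1],
   [0, 0, 0, 0, 0, 0, 1, 0, 1, 1, 0],
   [0, 0, 0, 0, 0, 0, 0, 1, 1, 0, 1]]

def M1L : List (List ℕ) :=
  [[3, 1, 1, 1, 1, 1, 1, 0, 0, 0, 0],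
   [1, 3, 1, 1, 1, 1, 0, 1, 0, 0, 0],
   [1, 1, 3, 1, 1, 1, 0, 0, 1, 0, 0],
   [1, 1, 1, 3, 0, 0, 1, 1, 0, 1, 0],
   [1, 1, 1, 0, 3, 0, 1, 0, 1, 0, 1],
   [1, 1, 1, 0, 0, 3, 0, 1, 0, 1, 1],
   [1, 0, 0, 1, 1, 0, 3, 0, 1, 1, 1],
   [0, 1, 0, 1, 0, 1, 0, 3, 1, 1, 1],
   [0, 0, 1, 0, 1, 0, 1, 1, 3, 1, 1],
   [0, 0, 0, 1, 0, 1, 1, 1, 1, 3, 1],
   [0, 0, 0, 0, 1, 1, 1, 1, 1, 1, 3]]

def M2L : List (List ℕ) :=
  [[15, 10, 10, 9, 9, 8, 8, 3, 3, 3, 3],
   [10, 15, 10, 9, 8, 9, 3, 8, 3, 3, 3],
   [10, 10, 15, 8, 9, 8, 4, 4, 7, 3, 3],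
   [9, 9, 8, 15, 4, 5, 8, 8, 4, 8, 3],
   [9, 8, 9, 4, 15, 4, 9, 3, 9, 3, 8],
   [8, 9, 8, 5, 4, 15, 3, 9, 4, 8, 8],
   [8, 3, 4, 8, 9, 3, 15, 4, 9, 9, 9],
   [3, 8, 4, 8, 3, 9, 4, 15, 8, 10, 9],
   [3, 3, 7, 4, 9, 4, 9, 8, 15, 9, 10],
   [3, 3, 3, 8, 3, 8, 9, 10, 9, 15, 10],
   [3, 3, 3, 3, 8, 8, 9, 9, 10, 10, 15]]

def M4L : List (List ℕ) :=
  [[751, 700, 700, 649, 649, 602, 580, 494, 492, 472, 472],
   [700, 751, 699, 650, 603, 648, 494, 580, 482, 482, 472],
   [700, 699, 733, 621, 648, 610, 532, 522, 540, 474, 482],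
   [649, 650, 621, 709, 545, 583, 589, 599, 524, 588, 504],
   [649, 603, 648, 545, 727, 534, 638, 495, 628, 504, 590],
   [602, 648, 610, 583, 534, 709, 505, 646, 534, 600, 590],
   [580, 494, 532, 589, 638, 505, 727, 545, 659, 641, 651],
   [494, 580, 522, 599, 495, 646, 545, 729, 612, 688, 651],
   [492, 482, 540, 524, 628, 534, 659, 612, 731, 661, 698],
   [472, 482, 474, 588, 504, 600, 641, 688, 661, 751, 700],
   [472, 472, 482, 504, 590, 590, 651, 651, 698, 700, 751]]

/-- The incidence matrix. -/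
abbrev A : Matrix (Fin 11) (Fin 11) ℕ := tab AL

theorem A_zero_one : ∀ i j, A i j = 0 ∨ A i j = 1 := by decide +kernel

theorem A_symm : ∀ i j, A i j = A j i := by decide +kernel

theorem mul_eq_tab (X Y Z : List (List ℕ))
    (h : ∀ i j : Fin 11, ∑ k : Fin 11, tab X i k * tab Y k j = tab Z i j) :
    tab X * tab Y = tab Z := by
  ext i j
  rw [Matrix.mul_apply]
  exact h i j

theorem hM1 : tab AL * tab AL = tab M1L := mul_eq_tab _ _ _ (by decide +kernel)
theorem hM2 : tab M1L * tab M1L = tab M2L := mul_eq_tab _ _ _ (by decide +kernel)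
theorem hM4 : tab M2L * tab M2L = tab M4L := mul_eq_tab _ _ _ (by decide +kernel)

theorem hM8 : ∀ i j : Fin 11,
    ∑ k : Fin 11, tab M4L i k * tab M4L k i = ∑ k : Fin 11, tab M4L j k * tab M4L k j → i = j := by
  decide +kernel

/-- The configuration has only one selfduality: the one given by the (symmetric) labelling. -/
theorem duality_unique (σ τ : Equiv.Perm (Fin 11))
    (h : ∀ i j, A i j = A (τ j) (σ i)) : (∀ i, σ i = i) ∧ (∀ j, τ j = j) := by
  have h1 : A.submatrix σ τ = A := by
    ext i j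
    rw [Matrix.submatrix_apply, ← A_symm, ← h]
  have h2 : A.submatrix τ σ = A := by
    ext i j
    rw [Matrix.submatrix_apply, ← h, ← A_symm]
  have s1 : (tab M1L).submatrix σ σ = tab M1L := by
    rw [← hM1, ← Matrix.submatrix_mul_equiv _ _ σ τ σ, h1, h2]
  have s1' : (tab M1L).submatrix τ τ = tab M1L := by
    rw [← hM1, ← Matrix.submatrix_mul_equiv _ _ τ σ τ, h1, h2]
  have s2 : (tab M2L).submatrix σ σ = tab M2L := by
    rw [← hM2, ← Matrix.submatrix_mul_equiv _ _ σ σ σ, s1]
  have s2' : (tab M2L).submatrix τ τ = tab M2L := by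
    rw [← hM2, ← Matrix.submatrix_mul_equiv _ _ τ τ τ, s1']
  have s4 : (tab M4L).submatrix σ σ = tab M4L := by
    rw [← hM4, ← Matrix.submatrix_mul_equiv _ _ σ σ σ, s2]
  have s4' : (tab M4L).submatrix τ τ = tab M4L := by
    rw [← hM4, ← Matrix.submatrix_mul_equiv _ _ τ τ τ, s2']
  have s8 : (tab M4L * tab M4L).submatrix σ σ = tab M4L * tab M4L := by
    rw [← Matrix.submatrix_mul_equiv _ _ σ σ σ, s4]
  have s8' : (tab M4L * tab M4L).submatrix τ τ = tab M4L * tab M4L := by
    rw [← Matrix.submatrix_mul_equiv _ _ τ τ τ, s4']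
  constructor
  · intro i
    apply hM8
    have := congrFun (congrFun s8 i) i
    rw [Matrix.submatrix_apply, Matrix.mul_apply, Matrix.mul_apply] at this
    exact this
  · intro i
    apply hM8
    have := congrFun (congrFun s8' i) i
    rw [Matrix.submatrix_apply, Matrix.mul_apply, Matrix.mul_apply] at this
    exact this

/-! ### The geometric obstruction -/

theorem affine_prop (a b c a' b' c' u0 u1 v0 v1 w0 w1 y0 y1 : ℝ)
    (huv : u0 ≠ v0 ∨ u1 ≠ v1)
    (h1 : a * u0 + b * u1 + c = 0) (h2 : a * v0 + b * v1 + c = 0)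
    (h3 : a' * u0 + b' * u1 + c' = 0) (h4 : a' * v0 + b' * v1 + c' = 0) :
    (a' * y0 + b' * y1 + c') * (a * w0 + b * w1 + c) =
      (a * y0 + b * y1 + c) * (a' * w0 + b' * w1 + c') := by
  have e1 : a * (u0 - v0) + b * (u1 - v1) = 0 := by linarith
  have e2 : a' * (u0 - v0) + b' * (u1 - v1) = 0 := by linarith
  have key : a * b' - a' * b = 0 := by
    rcases huv with h | h
    · have : (a * b' - a' * b) * (u0 - v0) = 0 := by linear_combination b' * e1 - b * e2
      rcases mul_eq_zero.1 this with h5 | h5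
      · exact h5
      · exact absurd (by linarith) h
    · have : (a * b' - a' * b) * (u1 - v1) = 0 := by linear_combination a * e2 - a' * e1
      rcases mul_eq_zero.1 this with h5 | h5
      · exact h5
      · exact absurd (by linarith) h
  have hc : c = -(a * u0 + b * u1) := by linarith
  have hc' : c' = -(a' * u0 + b' * u1) := by linarith
  rw [hc, hc']
  linear_combination ((y1 - u1) * (w0 - u0) - (y0 - u0) * (w1 - u1)) * key

theorem ne_coord {x y : Plane} (h : x ≠ y) : x 0 ≠ y 0 ∨ x 1 ≠ y 1 := by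
  by_contra hcon
  push Not at hcon
  exact h (plane_ext hcon.1 hcon.2)

/-- The key contradiction: a bi-affine form cannot realize the configuration self-dually. -/
theorem no_correlation (B : Plane → Plane → ℝ)
    (hB1 : ∀ z, ∃ a b c : ℝ, ∀ y : Plane, B y z = a * y 0 + b * y 1 + c)
    (hB2 : ∀ y, ∃ a b c : ℝ, ∀ z : Plane, B y z = a * z 0 + b * z 1 + c)
    (q : Fin 11 → Plane) (hq : Function.Injective q)
    (H1 : ∀ i j, B (q i) (q j) = 0 ↔ A i j = 1)
    (H2 : ∀ j y, B y (q j) = 0 ↔ B (q j) y = 0) : False := by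
  have hz : ∀ i j : Fin 11, A i j = 1 → B (q i) (q j) = 0 := fun i j h => (H1 i j).2 h
  have hnz : ∀ i j : Fin 11, A i j = 0 → B (q i) (q j) ≠ 0 := by
    intro i j h h'
    have := (H1 i j).1 h'
    omega
  -- proportionality
  have prop : ∀ (j u v : Fin 11), u ≠ v → A u j = 1 → A v j = 1 → ∀ y w : Plane,
      B (q j) y * B w (q j) = B y (q j) * B (q j) w := by
    intro j u v huv hu hv y w
    obtain ⟨a, b, c, h⟩ := hB1 (q j)
    obtain ⟨a', b', c', h'⟩ := hB2 (q j)
    have k1 := hz u j hu
    have k2 := hz v j hv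
    have k3 := (H2 j (q u)).1 k1
    have k4 := (H2 j (q v)).1 k2
    rw [h] at k1 k2
    rw [h'] at k3 k4
    rw [h, h, h', h']
    exact affine_prop a b c a' b' c' (q u 0) (q u 1) (q v 0) (q v 1) (w 0) (w 1) (y 0) (y 1)
      (ne_coord (fun h5 => huv (hq h5))) k1 k2 k3 k4
  -- `q 5` is not on its own line
  have sym5 : ∀ y : Plane, B (q 5) y = B y (q 5) := by
    intro y
    have := prop 5 2 4 (by decide) (by decide +kernel) (by decide +kernel) y (q 5)
    exact mul_right_cancel₀ (hnz 5 5 (by decide +kernel)) this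
  have sym1 : ∀ y : Plane, B (q 1) y = B y (q 1) := by
    intro y
    have := prop 1 0 4 (by decide) (by decide +kernel) (by decide +kernel) y (q 5)
    rw [← sym5 (q 1)] at this
    exact mul_right_cancel₀ (hnz 5 1 (by decide +kernel)) this
  -- collinearity of `q 1, q 2, q 3`
  obtain ⟨a, b, c, h0⟩ := hB1 (q 0)
  have c1 := hz 1 0 (by decide +kernel)
  have c2 := hz 2 0 (by decide +kernel)
  have c3 := hz 3 0 (by decide +kernel)
  have c0 := hnz 0 0 (by decide +kernel)
  rw [h0] at c1 c2 c3 c0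
  have hs : ∃ s : ℝ, q 3 0 = q 1 0 + s * (q 2 0 - q 1 0) ∧ q 3 1 = q 1 1 + s * (q 2 1 - q 1 1) := by
    have hcross : (q 3 0 - q 1 0) * (q 2 1 - q 1 1) - (q 3 1 - q 1 1) * (q 2 0 - q 1 0) = 0 := by
      by_cases ha : a = 0
      · have hb : b ≠ 0 := by
          intro hb
          rw [ha, hb] at c1 c0
          apply c0
          linarith
        have e1 : q 2 1 = q 1 1 := by
          have : b * (q 2 1 - q 1 1) = 0 := by rw [ha] at c1 c2; linarith
          rcases mul_eq_zero.1 this with h5 | h5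
          · exact absurd h5 hb
          · linarith
        have e2 : q 3 1 = q 1 1 := by
          have : b * (q 3 1 - q 1 1) = 0 := by rw [ha] at c1 c3; linarith
          rcases mul_eq_zero.1 this with h5 | h5
          · exact absurd h5 hb
          · linarith
        rw [e1, e2]; ring
      · have : a * ((q 3 0 - q 1 0) * (q 2 1 - q 1 1) - (q 3 1 - q 1 1) * (q 2 0 - q 1 0)) = 0 := by
          linear_combination (q 2 1 - q 1 1) * (c3 - c1) - (q 3 1 - q 1 1) * (c2 - c1)
        rcases mul_eq_zero.1 this with h5 | h5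
        · exact absurd h5 ha
        · exact h5
    rcases ne_coord (fun h5 : q 2 = q 1 => absurd (hq h5) (by decide)) with h5 | h5
    · have h6 : q 2 0 - q 1 0 ≠ 0 := sub_ne_zero.2 h5
      refine ⟨(q 3 0 - q 1 0) / (q 2 0 - q 1 0), ?_, ?_⟩
      · rw [div_mul_cancel₀ _ h6]; ring
      · field_simp; linarith
    · have h6 : q 2 1 - q 1 1 ≠ 0 := sub_ne_zero.2 h5
      refine ⟨(q 3 1 - q 1 1) / (q 2 1 - q 1 1), ?_, ?_⟩
      · field_simp; linarith
      · rw [div_mul_cancel₀ _ h6]; ring
  obtain ⟨s, hs0, hs1⟩ := hs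
  have hsne0 : s ≠ 0 := by
    intro h5
    have : q 3 = q 1 := plane_ext (by rw [hs0, h5]; ring) (by rw [hs1, h5]; ring)
    exact absurd (hq this) (by decide)
  have hsne1 : 1 - s ≠ 0 := by
    intro h5
    have h6 : s = 1 := by linarith
    have : q 3 = q 2 := plane_ext (by rw [hs0, h6]; ring) (by rw [hs1, h6]; ring)
    exact absurd (hq this) (by decide)
  have lin1 : ∀ z, B (q 3) z = (1 - s) * B (q 1) z + s * B (q 2) z := by
    intro z
    obtain ⟨a, b, c, h⟩ := hB1 z
    rw [h, h, h, hs0, hs1]; ring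
  have lin2 : ∀ z, B z (q 3) = (1 - s) * B z (q 1) + s * B z (q 2) := by
    intro z
    obtain ⟨a, b, c, h⟩ := hB2 z
    rw [h, h, h, hs0, hs1]; ring
  have e11 := hz 1 1 (by decide +kernel)
  have e22 := hz 2 2 (by decide +kernel)
  have e33 := hz 3 3 (by decide +kernel)
  rw [lin1, lin2, lin2, e11, e22] at e33
  have e12 : B (q 1) (q 2) = B (q 2) (q 1) := sym1 (q 2)
  rw [← e12] at e33
  have : (1 - s) * s * B (q 1) (q 2) = 0 := by linarith
  rcases mul_eq_zero.1 this with h5 | h5
  · rcases mul_eq_zero.1 h5 with h6 | h6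
    · exact hsne1 h6
    · exact hsne0 h6
  · exact hnz 1 2 (by decide +kernel) h5

/-! ### The concrete configuration in the integer grid -/

/-- First coordinates of the points. -/
def px : Fin 11 → ℤ := ![7, 5, 5, 5, 6, 3, 6, 2, 4, 0, 6]
/-- Second coordinates of the points. -/
def py : Fin 11 → ℤ := ![6, 6, 4, 0, 6, 2, 3, 0, 2, 0, 4]
/-- Coefficients of the lines. -/
def la : Fin 11 → ℤ := ![1, 0, 1, 3, 2, 2, 0, 1, 2, 1, 1]
/-- Coefficients of the lines. -/
def lb : Fin 11 → ℤ := ![0, 1, -1, -1, -1, -1, 1, 0, -3, -2, -1]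
/-- Constants of the lines. -/
def lc : Fin 11 → ℤ := ![5, 6, 1, 15, 4, 6, 0, 6, 0, 0, 2]

/-- The eleven points. -/
noncomputable def pt (i : Fin 11) : Plane := !₂[(px i : ℝ), (py i : ℝ)]

/-- The eleven lines. -/
noncomputable def ln (j : Fin 11) : Set Plane :=
  {p | (la j : ℝ) * p 0 + (lb j : ℝ) * p 1 = (lc j : ℝ)}

theorem inc_int : ∀ i j : Fin 11, la j * px i + lb j * py i = lc j ↔ A i j = 1 := by
  decide +kernel

theorem pt_inj_int : ∀ i j : Fin 11, px i = px j → py i = py j → i = j := by decide +kernel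

theorem coef_int : ∀ j : Fin 11, ¬ (la j = 0 ∧ lb j = 0) := by decide +kernel

theorem A_cols : ∀ j j' : Fin 11, (∀ i, A i j = 1 ↔ A i j' = 1) → j = j' := by decide +kernel

theorem A_col_sum : ∀ j : Fin 11, (Finset.univ.filter (fun i => A i j = 1)).card = 3 := by
  decide +kernel

theorem A_row_sum : ∀ i : Fin 11, (Finset.univ.filter (fun j => A i j = 1)).card = 3 := by
  decide +kernel

/-! ### An isometry that maps the points of the polar onto the points maps lines onto lines -/

theorem A_sum_two : ∀ x y z : Fin 11, x ≠ y → x ≠ z → y ≠ z →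
    (x = 0 ∨ x = 1 ∨ x = 9 ∨ x = 10) →
    ∃ j, (A x j = 1 ∧ A y j = 1) ∨ (A x j = 1 ∧ A z j = 1) ∨ (A y j = 1 ∧ A z j = 1) := by
  decide +kernel

theorem A_cover : ∀ j : Fin 11, j ≠ 5 → A 0 j = 1 ∨ A 1 j = 1 ∨ A 9 j = 1 ∨ A 10 j = 1 := by
  decide +kernel

theorem A_two_points : ∀ j : Fin 11, ∃ k k', k ≠ k' ∧ A k j = 1 ∧ A k' j = 1 := by
  decide +kernel

theorem A_two : (Finset.univ.filter (fun j : Fin 11 => j ≠ 5 ∧ A 2 j = 1)).card = 2 := by
  decide +kernel

theorem A_four : (Finset.univ.filter (fun j : Fin 11 => j ≠ 5 ∧ A 4 j = 1)).card = 2 := by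
  decide +kernel

theorem A_row_zero : ∀ i : Fin 11, ∃ j, A i j = 0 := by decide +kernel

theorem A_linear : ∀ i i' j j' : Fin 11, j ≠ j' → A i j = 1 → A i j' = 1 → A i' j = 1 →
    A i' j' = 1 → i = i' := by decide +kernel

theorem lines_to_lines (S : Fin 11 → Fin 11 → Prop) [∀ i k, Decidable (S i k)]
    (hrow : ∀ i, (Finset.univ.filter (fun k => S i k)).card = 3)
    (hcol : ∀ k, (Finset.univ.filter (fun i => S i k)).card = 3)
    (hlin : ∀ i i' k k', k ≠ k' → S i k → S i k' → S i' k → S i' k' → i = i')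
    (hF1 : ∀ i j k k', k ≠ k' → S i k → S i k' → A k j = 1 → A k' j = 1 →
      ∀ l, S i l ↔ A l j = 1) :
    ∀ i, ∃ j, ∀ l, S i l ↔ A l j = 1 := by
  classical
  -- functionality
  have hfun : ∀ i i' j, (∀ l, S i l ↔ A l j = 1) → (∀ l, S i' l ↔ A l j = 1) → i = i' := by
    intro i i' j h h'
    obtain ⟨k, k', hkk, h1, h2⟩ := A_two_points j
    exact hlin i i' k k' hkk ((h k).2 h1) ((h k').2 h2) ((h' k).2 h1) ((h' k').2 h2)
  -- step 1
  have step1 : ∀ i k, (k = 0 ∨ k = 1 ∨ k = 9 ∨ k = 10) → S i k →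
      ∃ j, ∀ l, S i l ↔ A l j = 1 := by
    intro i k hk hik
    have hkm : k ∈ Finset.univ.filter (fun k => S i k) := by simpa using hik
    have hc : ((Finset.univ.filter (fun k => S i k)).erase k).card = 2 := by
      rw [Finset.card_erase_of_mem hkm, hrow]
    obtain ⟨y, z, hyz, he⟩ := Finset.card_eq_two.1 hc
    have hy : y ∈ (Finset.univ.filter (fun k => S i k)).erase k := by rw [he]; simp
    have hz : z ∈ (Finset.univ.filter (fun k => S i k)).erase k := by rw [he]; simp
    rw [Finset.mem_erase, Finset.mem_filter] at hy hz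
    obtain ⟨j, hj⟩ := A_sum_two k y z (Ne.symm hy.1) (Ne.symm hz.1) hyz hk
    refine ⟨j, ?_⟩
    rcases hj with ⟨h1, h2⟩ | ⟨h1, h2⟩ | ⟨h1, h2⟩
    · exact hF1 i j k y (Ne.symm hy.1) hik hy.2.2 h1 h2
    · exact hF1 i j k z (Ne.symm hz.1) hik hz.2.2 h1 h2
    · exact hF1 i j y z hyz hy.2.2 hz.2.2 h1 h2
  -- step 2
  have step2 : ∀ k, (k = 0 ∨ k = 1 ∨ k = 9 ∨ k = 10) → ∀ j, A k j = 1 →
      ∃ i, ∀ l, S i l ↔ A l j = 1 := by
    intro k hk
    have hch : ∀ i : Fin 11, ∃ j, S i k → ∀ l, S i l ↔ A l j = 1 := by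
      intro i
      by_cases hik : S i k
      · obtain ⟨j, hj⟩ := step1 i k hk hik
        exact ⟨j, fun _ => hj⟩
      · exact ⟨0, fun h => absurd h hik⟩
    choose F hF using hch
    have himg : (Finset.univ.filter (fun i => S i k)).image F ⊆
        Finset.univ.filter (fun j => A k j = 1) := by
      intro j hj
      obtain ⟨i, hi, rfl⟩ := Finset.mem_image.1 hj
      rw [Finset.mem_filter] at hi
      simp only [Finset.mem_filter, Finset.mem_univ, true_and]
      exact (hF i hi.2 k).1 hi.2
    have hcard : ((Finset.univ.filter (fun i => S i k)).image F).card = 3 := by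
      rw [Finset.card_image_of_injOn, hcol]
      intro i hi i' hi' hii
      have hi2 : S i k := by simpa using hi
      have hi2' : S i' k := by simpa using hi'
      exact hfun i i' (F i) (hF i hi2) (by rw [hii]; exact hF i' hi2')
    have heq := Finset.eq_of_subset_of_card_le himg (by rw [hcard, A_row_sum k])
    intro j hj
    have : j ∈ Finset.univ.filter (fun j => A k j = 1) := by simpa using hj
    rw [← heq] at this
    obtain ⟨i, hi, rfl⟩ := Finset.mem_image.1 this
    exact ⟨i, hF i (by simpa using hi)⟩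
  -- step 3
  have step3 : ∀ j, j ≠ 5 → ∃ i, ∀ l, S i l ↔ A l j = 1 := by
    intro j hj
    rcases A_cover j hj with h | h | h | h
    · exact step2 0 (by simp) j h
    · exact step2 1 (by simp) j h
    · exact step2 9 (by simp) j h
    · exact step2 10 (by simp) j h
  -- step 4
  intro i₀
  by_contra hcon
  push Not at hcon
  have hch : ∀ j : Fin 11, ∃ i, (j ≠ 5 → ∀ l, S i l ↔ A l j = 1) ∧ (j = 5 → i = i₀) := by
    intro j
    by_cases hj : j = 5
    · exact ⟨i₀, fun h => absurd hj h, fun _ => rfl⟩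
    · obtain ⟨i, hi⟩ := step3 j hj
      exact ⟨i, fun _ => hi, fun h => absurd h hj⟩
  choose ψ hψ using hch
  have hcon' : ∀ j, ¬ ∀ l, S i₀ l ↔ A l j = 1 := by
    intro j hj
    obtain ⟨l, hl⟩ := hcon j
    rcases hl with hl | hl
    · exact hl.2 ((hj l).1 hl.1)
    · exact hl.1 ((hj l).2 hl.2)
  have hψinj : Function.Injective ψ := by
    intro j j' hjj
    by_cases h5 : j = 5
    · by_cases h5' : j' = 5
      · rw [h5, h5']
      · exfalso
        have h1 := (hψ j).2 h5
        have h2 := (hψ j').1 h5'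
        rw [← hjj, h1] at h2
        exact hcon' _ h2
    · by_cases h5' : j' = 5
      · exfalso
        have h1 := (hψ j').2 h5'
        have h2 := (hψ j).1 h5
        rw [hjj, h1] at h2
        exact hcon' _ h2
      · apply A_cols
        intro l
        rw [← (hψ j).1 h5 l, hjj, (hψ j').1 h5' l]
  have hψbij := Finite.injective_iff_bijective.1 hψinj
  have hpt : ∀ k, (Finset.univ.filter (fun j : Fin 11 => j ≠ 5 ∧ A k j = 1)).card = 2 →
      S i₀ k := by
    intro k hk
    by_contra hS
    have h1 : (Finset.univ.filter (fun i => S i k)) =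
        (Finset.univ.filter (fun j : Fin 11 => j ≠ 5 ∧ A k j = 1)).image ψ := by
      ext i
      obtain ⟨j, rfl⟩ := hψbij.2 i
      simp only [Finset.mem_filter, Finset.mem_univ, true_and, Finset.mem_image]
      constructor
      · intro h
        have h5 : j ≠ 5 := by
          intro h5
          rw [(hψ j).2 h5] at h
          exact hS h
        exact ⟨j, ⟨h5, ((hψ j).1 h5 k).1 h⟩, rfl⟩
      · rintro ⟨j', ⟨h5, h6⟩, h7⟩
        rw [← h7]
        exact ((hψ j').1 h5 k).2 h6
    have h2 := hcol k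
    rw [h1, Finset.card_image_of_injective _ hψinj, hk] at h2
    omega
  have h2 : S i₀ 2 := hpt 2 A_two
  have h4 : S i₀ 4 := hpt 4 A_four
  exact hcon' 5 (hF1 i₀ 5 2 4 (by decide) h2 h4 (by decide +kernel) (by decide +kernel))

theorem isLine_ln (j : Fin 11) : IsLine (ln j) := by
  refine ⟨la j, lb j, lc j, ?_, fun p => Iff.rfl⟩
  by_contra hcon
  push Not at hcon
  exact coef_int j ⟨by exact_mod_cast hcon.1, by exact_mod_cast hcon.2⟩

theorem mem_ln (i j : Fin 11) : pt i ∈ ln j ↔ A i j = 1 := by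
  rw [← inc_int]
  change (la j : ℝ) * (px i : ℝ) + (lb j : ℝ) * (py i : ℝ) = (lc j : ℝ) ↔ _
  exact_mod_cast Iff.rfl

theorem pt_injective : Function.Injective pt := by
  intro i j h
  have e0 : (px i : ℝ) = px j := by
    have := congrArg (fun z : Plane => z 0) h
    simpa [pt] using this
  have e1 : (py i : ℝ) = py j := by
    have := congrArg (fun z : Plane => z 1) h
    simpa [pt] using this
  exact pt_inj_int i j (by exact_mod_cast e0) (by exact_mod_cast e1)

theorem ln_injective : Function.Injective ln := by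
  intro j j' h
  apply A_cols
  intro i
  rw [← mem_ln, ← mem_ln, h]

/-- The configuration. -/
noncomputable def C₀ : Config where
  pts := Set.range pt
  lns := Set.range ln

/-- Labelling of the points. -/
noncomputable def eP : Fin 11 ≃ C₀.pts := Equiv.ofInjective pt pt_injective
/-- Labelling of the lines. -/
noncomputable def eL : Fin 11 ≃ C₀.lns := Equiv.ofInjective ln ln_injective

theorem coe_eP (i : Fin 11) : ((eP i : C₀.pts) : Plane) = pt i := rfl
theorem coe_eL (j : Fin 11) : ((eL j : C₀.lns) : Set Plane) = ln j := rfl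

theorem C₀_geometric : C₀.IsGeometric 11 3 where
  isLine := by
    rintro l ⟨j, rfl⟩
    exact isLine_ln j
  pts_finite := Set.finite_range _
  lns_finite := Set.finite_range _
  pts_card := by
    change (Set.range pt).ncard = 11
    rw [Set.ncard_range_of_injective pt_injective]
    simp
  lns_card := by
    change (Set.range ln).ncard = 11
    rw [Set.ncard_range_of_injective ln_injective]
    simp
  line_card := by
    rintro l ⟨j, rfl⟩
    have : {p | p ∈ C₀.pts ∧ p ∈ ln j} =
        pt '' ((Finset.univ.filter (fun i => A i j = 1) : Finset (Fin 11)) : Set (Fin 11)) := by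
      ext p
      constructor
      · rintro ⟨⟨i, rfl⟩, hi⟩
        exact ⟨i, by simpa using (mem_ln i j).1 hi, rfl⟩
      · rintro ⟨i, hi, rfl⟩
        exact ⟨⟨i, rfl⟩, (mem_ln i j).2 (by simpa using hi)⟩
    rw [this, Set.ncard_image_of_injective _ pt_injective, Set.ncard_coe_finset]
    exact A_col_sum j
  point_card := by
    rintro p ⟨i, rfl⟩
    have : {l | l ∈ C₀.lns ∧ pt i ∈ l} =
        ln '' ((Finset.univ.filter (fun j => A i j = 1) : Finset (Fin 11)) : Set (Fin 11)) := by
      ext l
      constructor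
      · rintro ⟨⟨j, rfl⟩, hj⟩
        exact ⟨j, by simpa using (mem_ln i j).1 hj, rfl⟩
      · rintro ⟨j, hj, rfl⟩
        exact ⟨⟨j, rfl⟩, (mem_ln i j).2 (by simpa using hj)⟩
    rw [this, Set.ncard_image_of_injective _ ln_injective, Set.ncard_coe_finset]
    exact A_row_sum i

/-- The selfduality `point i ↔ line i`. -/
noncomputable def δ₀ : Equiv.Perm (C₀.pts ⊕ C₀.lns) where
  toFun
    | .inl p => .inr (eL (eP.symm p))
    | .inr l => .inl (eP (eL.symm l))
  invFun
    | .inl p => .inr (eL (eP.symm p))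
    | .inr l => .inl (eP (eL.symm l))
  left_inv := by rintro (p | l) <;> simp
  right_inv := by rintro (p | l) <;> simp

theorem δ₀_inl (p : C₀.pts) : δ₀ (.inl p) = .inr (eL (eP.symm p)) := rfl
theorem δ₀_inr (l : C₀.lns) : δ₀ (.inr l) = .inl (eP (eL.symm l)) := rfl

theorem δ₀_selfduality : C₀.IsSelfduality δ₀ where
  pts_to_lns := fun p => rfl
  lns_to_pts := fun l => rfl
  inc := by
    have key : ∀ (p : C₀.pts) (l : C₀.lns), p.val ∈ l.val ↔
        (eP (eL.symm l)).val ∈ (eL (eP.symm p)).val := by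
      intro p l
      obtain ⟨i, rfl⟩ := eP.surjective p
      obtain ⟨j, rfl⟩ := eL.surjective l
      rw [Equiv.symm_apply_apply, Equiv.symm_apply_apply, coe_eP, coe_eL, coe_eP, coe_eL,
        mem_ln, mem_ln, A_symm]
    rintro (p | l) (p' | l')
    · exact Iff.rfl
    · exact key p l'
    · exact key p' l
    · exact Iff.rfl

theorem C₀_rank : C₀.HasRank 2 := by
  constructor
  · refine ⟨δ₀, δ₀_selfduality, ?_⟩
    apply orderOf_eq_prime
    · ext x
      rw [pow_two, Equiv.Perm.mul_apply]
      rcases x with p | l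
      · rw [δ₀_inl, δ₀_inr]; simp
      · rw [δ₀_inr, δ₀_inl]; simp
    · intro h
      have := congrArg (fun e : Equiv.Perm (C₀.pts ⊕ C₀.lns) => e (.inl (eP 0))) h
      simp [δ₀_inl] at this
  · rintro k ⟨δ, hδ, rfl⟩
    have : Finite C₀.pts := Finite.of_equiv _ eP
    have : Finite C₀.lns := Finite.of_equiv _ eL
    have h0 : 0 < orderOf δ := orderOf_pos δ
    have h1 : orderOf δ ≠ 1 := by
      intro h
      rw [orderOf_eq_one_iff] at h
      have := hδ.pts_to_lns (eP 0)
      rw [h] at this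
      simp at this
    omega

/-- There is a selfdual geometric configuration `(11_3)` of rank 2 no realization of which is
congruent to its polar in any circle. -/
theorem result : ∃ C : Config, C.IsGeometric 11 3 ∧ C.HasRank 2 ∧
    ∀ C' : Config, C'.IsGeometric 11 3 → C.Iso C' →
      ∀ (c : Plane) (r : ℝ), 0 < r → C'.PolarDefined c → ¬ (C'.polar c r).Congruent C' := by
  refine ⟨C₀, C₀_geometric, C₀_rank, ?_⟩
  rintro C' hC' ⟨f, h, hfh⟩ c r hr ⟨hc1, hc2⟩ ⟨g, hg1⟩
  set q : Fin 11 → Plane := fun i => (f (eP i) : Plane) with hq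
  set m : Fin 11 → Set Plane := fun j => (h (eL j) : Set Plane) with hm
  have hinc : ∀ i j, q i ∈ m j ↔ A i j = 1 := by
    intro i j
    rw [← mem_ln, ← coe_eP, ← coe_eL]
    exact (hfh (eP i) (eL j)).symm
  have hqinj : Function.Injective q := fun i j hij =>
    eP.injective (f.injective (Subtype.ext hij))
  have hminj : Function.Injective m := fun i j hij =>
    eL.injective (h.injective (Subtype.ext hij))
  have hqmem : ∀ i, q i ∈ C'.pts := fun i => (f (eP i)).2
  have hmmem : ∀ j, m j ∈ C'.lns := fun j => (h (eL j)).2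
  have hqsurj : ∀ p ∈ C'.pts, ∃ i, p = q i := by
    intro p hp
    obtain ⟨i, hi⟩ := eP.surjective (f.symm ⟨p, hp⟩)
    refine ⟨i, ?_⟩
    simp [hq, hi]
  have hqc : ∀ i, q i ≠ c := fun i hi => hc1 (hi ▸ hqmem i)
  -- images of the poles of the lines
  have hpole : ∀ j, ∃ x, x ≠ c ∧ polarLine c r x = m j := fun j =>
    exists_pole (m j) (hC'.isLine _ (hmmem j)) c (hc2 _ (hmmem j)) r hr
  choose x hxc hx using hpole
  have hτ : ∀ j, ∃ i, g (x j) = q i := by
    intro j
    have : g (x j) ∈ g '' (C'.polar c r).pts :=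
      ⟨x j, ⟨hxc j, by rw [hx]; exact hmmem j⟩, rfl⟩
    rw [hg1] at this
    exact hqsurj _ this
  choose τ hτ using hτ
  have hτinj : Function.Injective τ := by
    intro j j' hjj
    have h1 : g (x j) = g (x j') := by rw [hτ, hτ, hjj]
    have h2 := g.injective h1
    apply hminj
    rw [← hx, ← hx, h2]
  have hτbij := Finite.injective_iff_bijective.1 hτinj
  -- the bi-affine form
  obtain ⟨m00, m01, t0, m10, m11, t1, hgs⟩ := iso_coords g
  set B : Plane → Plane → ℝ := fun y z =>
    ((g.symm y) 0 - c 0) * (z 0 - c 0) + ((g.symm y) 1 - c 1) * (z 1 - c 1) - r ^ 2 with hB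
  have hB1 : ∀ z, ∃ a b c : ℝ, ∀ y : Plane, B y z = a * y 0 + b * y 1 + c := by
    intro z
    refine ⟨m00 * (z 0 - c 0) + m10 * (z 1 - c 1), m01 * (z 0 - c 0) + m11 * (z 1 - c 1),
      (t0 - c 0) * (z 0 - c 0) + (t1 - c 1) * (z 1 - c 1) - r ^ 2, ?_⟩
    intro y
    rw [hB]
    simp only
    rw [(hgs y).1, (hgs y).2]; ring
  have hB2 : ∀ y, ∃ a b c : ℝ, ∀ z : Plane, B y z = a * z 0 + b * z 1 + c := by
    intro y
    refine ⟨(g.symm y) 0 - c 0, (g.symm y) 1 - c 1,
      -((g.symm y) 0 - c 0) * c 0 - ((g.symm y) 1 - c 1) * c 1 - r ^ 2, ?_⟩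
    intro z
    rw [hB]
    simp only
    ring
  have hBL : ∀ i y, B y (q i) = 0 ↔ y ∈ g '' polarLine c r (q i) := by
    intro i y
    have e2 : y ∈ g '' polarLine c r (q i) ↔
        g.symm y ∈ polarLine c r (q i) := by
      constructor
      · rintro ⟨w, hw, rfl⟩
        simpa using hw
      · intro hw
        exact ⟨g.symm y, hw, by simp⟩
    rw [e2, mem_polarLine, hB]
    constructor
    · intro h1; simp only at h1; linarith
    · intro h1; simp only; linarith
  have hSτ : ∀ i j, q (τ j) ∈ g '' polarLine c r (q i) ↔ A i j = 1 := by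
    intro i j
    rw [← hτ, g.injective.mem_set_image, ← hinc, ← hx, mem_polarLine,
      mem_polarLine]
    constructor
    · intro h1; linarith
    · intro h1; linarith
  -- two common points force equality of lines
  have hset : ∀ i j k k', k ≠ k' → q k ∈ g '' polarLine c r (q i) →
      q k' ∈ g '' polarLine c r (q i) → A k j = 1 → A k' j = 1 →
      g '' polarLine c r (q i) = m j := by
    intro i j k k' hkk h1 h2 h3 h4
    obtain ⟨a, b, d, hf⟩ := hB1 (q i)
    obtain ⟨a', b', d', hab, hf'⟩ := hC'.isLine _ (hmmem j)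
    rw [← hBL, hf] at h1 h2
    have h3' := (hf' _).1 ((hinc k j).2 h3)
    have h4' := (hf' _).1 ((hinc k' j).2 h4)
    -- a point off the first line
    obtain ⟨jw, hjw⟩ : ∃ jw, A i jw = 0 := A_row_zero i
    have hw : B (q (τ jw)) (q i) ≠ 0 := by
      intro hcon
      have := (hSτ i jw).1 ((hBL i _).1 hcon)
      omega
    rw [hf] at hw
    -- a point off the second line
    obtain ⟨kw, hkw⟩ : ∃ kw, A kw j = 0 := by
      obtain ⟨kw, hkw⟩ := A_row_zero j
      exact ⟨kw, by rw [A_symm]; exact hkw⟩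
    have hw' : a' * (q kw) 0 + b' * (q kw) 1 + (-d') ≠ 0 := by
      intro hcon
      have := (hinc kw j).1 ((hf' _).2 (by linarith))
      omega
    have hprop : ∀ y w : Plane, (a' * y 0 + b' * y 1 + (-d')) * (a * w 0 + b * w 1 + d) =
        (a * y 0 + b * y 1 + d) * (a' * w 0 + b' * w 1 + (-d')) := fun y w =>
      affine_prop a b d a' b' (-d') (q k 0) (q k 1) (q k' 0) (q k' 1) (w 0) (w 1) (y 0) (y 1)
        (ne_coord (fun h5 => hkk (hqinj h5))) h1 h2 (by linarith) (by linarith)
    ext y
    rw [← hBL, hf, hf']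
    constructor
    · intro h5
      have h6 := hprop y (q (τ jw))
      rw [h5, zero_mul] at h6
      rcases mul_eq_zero.1 h6 with h7 | h7
      · linarith
      · exact absurd h7 hw
    · intro h5
      have h6 := hprop y (q kw)
      have h7 : a' * y 0 + b' * y 1 + (-d') = 0 := by linarith
      rw [h7, zero_mul] at h6
      rcases mul_eq_zero.1 h6.symm with h8 | h8
      · exact h8
      · exact absurd h8 hw'
  -- the isometry maps lines of the polar to lines of the configuration
  have hσ : ∀ i, ∃ j, g '' polarLine c r (q i) = m j := by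
    classical
    have key := lines_to_lines (fun i k => q k ∈ g '' polarLine c r (q i))
      ?_ ?_ ?_ ?_
    · intro i
      obtain ⟨j, hj⟩ := key i
      obtain ⟨k, k', hkk, h1, h2⟩ := A_two_points j
      exact ⟨j, hset i j k k' hkk ((hj k).2 h1) ((hj k').2 h2) h1 h2⟩
    · intro i
      have : (Finset.univ.filter (fun k => q k ∈ g '' polarLine c r (q i))) =
          (Finset.univ.filter (fun j => A i j = 1)).image τ := by
        ext k
        obtain ⟨j, rfl⟩ := hτbij.2 k
        simp only [Finset.mem_filter, Finset.mem_univ, true_and, Finset.mem_image]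
        rw [hSτ]
        constructor
        · intro h1; exact ⟨j, h1, rfl⟩
        · rintro ⟨j', h1, h2⟩
          rw [← hτinj h2]; exact h1
      rw [this, Finset.card_image_of_injective _ hτinj, A_row_sum]
    · intro k
      obtain ⟨j, rfl⟩ := hτbij.2 k
      have : (Finset.univ.filter
          (fun i => q (τ j) ∈ g '' polarLine c r (q i))) =
          Finset.univ.filter (fun i => A i j = 1) := by
        ext i
        simp only [Finset.mem_filter, Finset.mem_univ, true_and]
        exact hSτ i j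
      rw [this, A_col_sum]
    · intro i i' k k' hkk h1 h2 h3 h4
      obtain ⟨j, rfl⟩ := hτbij.2 k
      obtain ⟨j', rfl⟩ := hτbij.2 k'
      rw [hSτ] at h1 h2 h3 h4
      exact A_linear i i' j j' (fun h5 => hkk (by rw [h5])) h1 h2 h3 h4
    · intro i j k k' hkk h1 h2 h3 h4 l
      have := hset i j k k' hkk h1 h2 h3 h4
      rw [this, hinc]
  choose σ hσ using hσ
  have hσinj : Function.Injective σ := by
    intro i i' hii
    have h1 : g '' polarLine c r (q i) = g '' polarLine c r (q i') := by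
      rw [hσ, hσ, hii]
    have h2 := g.injective.image_injective h1
    exact hqinj (polarLine_inj c r hr _ _ (hqc i) h2)
  let σ' : Equiv.Perm (Fin 11) := Equiv.ofBijective σ (Finite.injective_iff_bijective.1 hσinj)
  let τ' : Equiv.Perm (Fin 11) := Equiv.ofBijective τ hτbij
  have hA : ∀ i j, A i j = A (τ' j) (σ' i) := by
    intro i j
    have e1 : A i j = 1 ↔ A (τ' j) (σ' i) = 1 := by
      rw [← hSτ, ← hinc, hσ]
      exact Iff.rfl
    rcases A_zero_one i j with h1 | h1 <;> rcases A_zero_one (τ' j) (σ' i) with h2 | h2 <;> omega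
  obtain ⟨hs, ht⟩ := duality_unique σ' τ' hA
  have hs' : ∀ i, σ i = i := hs
  have ht' : ∀ j, τ j = j := ht
  have hBm : ∀ j y, B y (q j) = 0 ↔ y ∈ m j := by
    intro j y
    rw [hBL, hσ, hs']
  have hBm' : ∀ j y, B (q j) y = 0 ↔ y ∈ m j := by
    intro j y
    have e1 : g.symm (q j) = x j := by
      have := hτ j
      rw [ht' j] at this
      rw [← this]; simp
    rw [← hx j, mem_polarLine, hB]
    simp only
    rw [e1]
    constructor
    · intro h1; linarith
    · intro h1; linarith
  refine no_correlation B hB1 hB2 q hqinj ?_ ?_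
  · intro i j
    rw [hBm, hinc]
  · intro j y
    rw [hBm, hBm']

end Pool.Agent.Results.MP_8aa8ea_co.NotSelfPolar
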